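import Pool.Agent.U41.PH.Stm

set_option autoImplicit false

/-!
Project PH, package U1 (helper460): the critical values of the universal form.
-/

namespace Pool.Agent.U41.PH

open Pool.Agent.H918R2.Quad Pool.Agent.TH214.RM Pool.Agent.U41.OD MvPolynomial

namespace U1

/-- the chain rule for integral polynomials -/
lemma chainZ {L σ : Type} [Field L] [Fintype σ] [DecidableEq σ] (D : Derivation ℤ L L) (w : σ → L)
    (P : MvPolynomial σ ℤ) : D (aeval w P) = ∑ j, aeval w (pderiv j P) * D (w j) := by
  induction P using MvPolynomial.induction_on with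
  | C a => simp
  | add p q hp hq => simp only [map_add, hp, hq, add_mul, Finset.sum_add_distrib]
  | mul_X p i hp =>
    rw [map_mul, Derivation.leibniz, hp, aeval_X]
    have h1 : ∀ j, aeval w (pderiv j (p * X i)) * D (w j) =
        aeval w p * (if j = i then D (w i) else 0) + w i * (aeval w (pderiv j p) * D (w j)) := by
      intro j
      rw [Derivation.leibniz]
      simp only [smul_eq_mul, map_add, map_mul, aeval_X]
      split_ifs with h
      · subst h
        rw [pderiv_X_self, map_one]
        ring
      · rw [pderiv_X_of_ne (Ne.symm h), map_zero]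
        ring
    simp only [h1, Finset.sum_add_distrib, ← Finset.mul_sum, smul_eq_mul]
    simp

/-- the chain rule for monomials -/
lemma chainM {K L σ : Type} [Field K] [Field L] [Algebra K L] [Fintype σ] [DecidableEq σ]
    (D : Derivation ℤ L L) (w : σ → L) (s : σ →₀ ℕ) :
    D (aeval w (monomial s (1 : K))) = ∑ j, aeval w (pderiv j (monomial s (1 : K))) * D (w j) := by
  have h1 : monomial s (1 : K) = map (algebraMap ℤ K) (monomial s (1 : ℤ)) := by
    rw [map_monomial, (algebraMap ℤ K).map_one]
  have h2 := chainZ D w (monomial s (1 : ℤ))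
  have h3 : ∀ P : MvPolynomial σ ℤ, aeval w (map (algebraMap ℤ K) P) = aeval w P := fun P => by
    rw [aeval_map_algebraMap]
  rw [h1, h3, h2]
  refine Finset.sum_congr rfl fun j _ => ?_
  rw [pderiv_map, h3]

/-- the chain rule for a sum of monomials -/
lemma chainS {K L σ : Type} [Field K] [Field L] [Algebra K L] [Fintype σ] [DecidableEq σ] {k : ℕ}
    (D : Derivation ℤ L L) (w : σ → L) (s : Fin k → σ →₀ ℕ) (c : Fin k → K) :
    D (aeval w (∑ b, monomial (s b) (c b))) =
      ∑ b, D (algebraMap K L (c b)) * aeval w (monomial (s b) (1 : K)) +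
      ∑ j, aeval w (pderiv j (∑ b, monomial (s b) (c b))) * D (w j) := by
  have h1 : ∀ b, monomial (s b) (c b) = C (c b) * monomial (s b) (1 : K) := fun b => by
    rw [C_mul_monomial, mul_one]
  have h2 : ∀ b, D (aeval w (monomial (s b) (c b))) =
      D (algebraMap K L (c b)) * aeval w (monomial (s b) (1 : K)) +
      ∑ j, aeval w (pderiv j (monomial (s b) (c b))) * D (w j) := by
    intro b
    rw [h1 b, map_mul, aeval_C, Derivation.leibniz, chainM, smul_eq_mul, smul_eq_mul, add_comm,
      mul_comm (aeval w (monomial (s b) (1 : K))), Finset.mul_sum]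
    congr 1
    refine Finset.sum_congr rfl fun j _ => ?_
    rw [pderiv_C_mul, map_mul, aeval_C]
    ring
  rw [map_sum, map_sum]
  simp only [h2, Finset.sum_add_distrib]
  congr 1
  rw [Finset.sum_comm]
  refine Finset.sum_congr rfl fun j _ => ?_
  rw [map_sum, map_sum, Finset.sum_mul]

/-- the values of the dehomogenized form -/
lemma aeval_deh' {K L ι : Type} [Field K] [Field L] [Algebra K L] [DecidableEq ι] (s : ι)
    (v : {j : ι // j ≠ s} → L) (G : MvPolynomial ι K) :
    aeval v (deh s G) = aeval (fun j => if h : j = s then (1 : L) else v ⟨j, h⟩) G := by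
  unfold deh
  have h1 : (aeval v : MvPolynomial {j : ι // j ≠ s} K →ₐ[K] L).comp (aeval (tau s)) =
      aeval (fun j => if h : j = s then (1 : L) else v ⟨j, h⟩) := by
    refine algHom_ext fun j => ?_
    rw [AlgHom.comp_apply, aeval_X, aeval_X]
    unfold tau
    split_ifs with h
    · rw [map_one]
    · rw [aeval_X]
  rw [← h1]
  rfl

/-- the exponent of `x_l x_0 ^ (d - 1)` -/
noncomputable def mon {n d : ℕ} (hd : 2 ≤ d) (l : {j : Fin (n + 2) // j ≠ 0}) : Idx n d :=
  ⟨Finsupp.single l.1 1 + Finsupp.single 0 (d - 1), by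
    rw [map_add, Finsupp.degree_single, Finsupp.degree_single]
    omega, fun h => by
    have h1 := DFunLike.congr_fun h l.1
    rw [Finsupp.add_apply, Finsupp.single_eq_same, Finsupp.single_eq_of_ne l.2,
      Finsupp.single_eq_of_ne l.2] at h1
    omega⟩

end U1

open U1 in
/-- Package U1. -/
theorem U1_ok (hD : S_DE) (hP : S_PT) : S_U1 := by
  intro n d k ex hd K _ _ _ G hG l
  classical
  by_contra hcon
  obtain ⟨L, _, _, hL, y, hy, hyz⟩ := hP _ _ hcon
  set A := MvPolynomial (Fin k) ℤ with hA
  have hinj : Function.Injective (algebraMap A K) := IsFractionRing.injective A K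
  haveI : CharZero K := charZero_of_injective_algebraMap hinj
  haveI : CharZero L := charZero_of_injective_algebraMap (algebraMap K L).injective
  set φ : A →+* L := (algebraMap K L).comp (algebraMap A K) with hφ
  have hφi : Function.Injective φ := (algebraMap K L).injective.comp hinj
  set a : Fin k := ex.symm (mon hd l) with ha
  obtain ⟨D, hD'⟩ := hD φ (Pi.single a 1) (by
    intro f hf
    have : f = 0 := hφi (by rw [hf, map_zero])
    rw [this]
    simp) (by
    intro z
    letI : Algebra A L := φ.toAlgebra
    haveI : IsScalarTower A K L := IsScalarTower.of_algebraMap_eq fun _ => rfl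
    have h1 : IsAlgebraic A z := (IsFractionRing.isAlgebraic_iff A K L).2 (hL.isAlgebraic z)
    obtain ⟨p, hp, hp'⟩ := h1
    refine ⟨p, ?_, ?_⟩
    · exact (Polynomial.map_ne_zero_iff hφi).2 hp
    · rw [Polynomial.eval_map]
      exact hp')
  have hDX : ∀ b, D (φ (X b)) = if b = a then 1 else 0 := by
    intro b
    rw [hD', Finset.sum_eq_single a]
    · rw [Pi.single_eq_same, mul_one]
      split_ifs with h
      · rw [h, pderiv_X_self, map_one]
      · rw [pderiv_X_of_ne h, map_zero]
    · intro i _ hi
      rw [Pi.single_eq_of_ne hi, mul_zero]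
    · intro h
      exact absurd (Finset.mem_univ _) h
  have hG' : G = ∑ b, monomial (ex b).1 (algebraMap A K (X b)) := by
    rw [hG]
    unfold univ form
    rw [map_sum]
    refine Finset.sum_congr rfl fun b _ => ?_
    rw [map_monomial]
  -- the derivative of the value
  have key : ∀ v : {j : Fin (n + 2) // j ≠ 0} → L, (∀ j, aeval v (pderiv j (deh 0 G)) = 0) →
      D (aeval v (deh 0 G)) = v l := by
    intro v hv
    rw [aeval_deh']
    set w : Fin (n + 2) → L := fun j => if h : j = 0 then (1 : L) else v ⟨j, h⟩ with hw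
    have h1 : D (aeval w G) = ∑ b, D (algebraMap K L (algebraMap A K (X b))) *
        aeval w (monomial (ex b).1 (1 : K)) + ∑ j, aeval w (pderiv j G) * D (w j) := by
      conv_lhs => rw [hG']
      rw [chainS, ← hG']
    have h2 : ∑ j, aeval w (pderiv j G) * D (w j) = 0 := by
      refine Finset.sum_eq_zero fun j _ => ?_
      by_cases hj : j = 0
      · have : w j = 1 := by rw [hw]; simp only [dif_pos hj]
        rw [this, Derivation.map_one_eq_zero, mul_zero]
      · have h3 := hv ⟨j, hj⟩
        rw [pderiv_deh, aeval_deh'] at h3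
        rw [hw]
        rw [h3, zero_mul]
    have h3 : ∑ b, D (algebraMap K L (algebraMap A K (X b))) *
        aeval w (monomial (ex b).1 (1 : K)) = aeval w (monomial (ex a).1 (1 : K)) := by
      rw [Finset.sum_eq_single a]
      · have := hDX a
        rw [if_pos rfl] at this
        have h4 : D (algebraMap K L (algebraMap A K (X a))) = 1 := this
        rw [h4, one_mul]
      · intro b _ hb
        have := hDX b
        rw [if_neg hb] at this
        have h4 : D (algebraMap K L (algebraMap A K (X b))) = 0 := this
        rw [h4, zero_mul]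
      · intro h
        exact absurd (Finset.mem_univ _) h
    rw [h1, h2, h3, add_zero, ha, Equiv.apply_symm_apply]
    have h5 : monomial (mon hd l : Idx n d).1 (1 : K) = X l.1 * X 0 ^ (d - 1) := by
      unfold mon
      simp only
      rw [X_pow_eq_monomial, X, monomial_mul, mul_one]
    rw [h5, map_mul, map_pow, aeval_X, aeval_X, hw]
    simp only [dif_neg l.2, dif_pos, one_pow, mul_one]
  set J := Ideal.span (insert (rename Sum.inl (deh 0 G) - rename Sum.inr (deh 0 G))
        ((Set.range fun j => rename Sum.inl (pderiv j (deh 0 G))) ∪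
          (Set.range fun j => rename Sum.inr (pderiv j (deh 0 G)))) :
        Set (MvPolynomial ({j : Fin (n + 2) // j ≠ 0} ⊕ {j : Fin (n + 2) // j ≠ 0}) K)) with hJ
  have k1 := key (y ∘ Sum.inl) (fun j => by
    have := hy _ (Ideal.subset_span (Set.mem_insert_of_mem _ (Or.inl ⟨j, rfl⟩)))
    rwa [aeval_rename] at this)
  have k2 := key (y ∘ Sum.inr) (fun j => by
    have := hy _ (Ideal.subset_span (Set.mem_insert_of_mem _ (Or.inr ⟨j, rfl⟩)))
    rwa [aeval_rename] at this)
  have k3 : aeval (y ∘ Sum.inl) (deh 0 G) = aeval (y ∘ Sum.inr) (deh 0 G) := by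
    have := hy _ (Ideal.subset_span (Set.mem_insert _ _))
    rw [map_sub, aeval_rename, aeval_rename, sub_eq_zero] at this
    exact this
  apply hyz
  rw [map_sub, aeval_rename, aeval_rename, aeval_X, aeval_X, ← k1, ← k2, k3, sub_self]

end Pool.Agent.U41.PH
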