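import Pool.Agent.U41.PH.StmE
import Pool.Agent.U41.PH.BP
import Pool.Agent.TH214.RM.Smooth

set_option autoImplicit false

/-!
Project PH, second part, package BPE (helper460): a form which is smooth modulo many primes.
-/

namespace Pool.Agent.U41.PH

open Pool.Agent.H918R2.Quad Pool.Agent.TH214.RM Pool.Agent.U41.OD MvPolynomial

namespace BPE

lemma smAt_of {m d : ℕ} (p : ℕ) (F : MvPolynomial (Fin m) ℤ) (hF : F.IsHomogeneous d)
    (h : ∀ (L : Type) [Field L], (p : L) = 0 → ∀ x : Fin m → L,
      (∀ j, aeval x (pderiv j F) = 0) → aeval x F = 0 → x = 0) : SmAt p F := by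
  intro s
  by_contra hcon
  obtain ⟨Q, hQ, hIQ⟩ := Ideal.exists_le_maximal _ ((Ideal.ne_top_iff_one _).2 hcon)
  obtain ⟨L, _, π, hπ⟩ : ∃ (L : Type) (_ : Field L)
      (π : MvPolynomial {j : Fin m // j ≠ s} ℤ →+* L), ∀ q, π q = 0 ↔ q ∈ Q :=
    ⟨_ ⧸ Q, Ideal.Quotient.field Q, Ideal.Quotient.mk Q, fun q => Ideal.Quotient.eq_zero_iff_mem⟩
  set x : Fin m → L := fun j => π (tau s j) with hxd
  have hx : ∀ P : MvPolynomial (Fin m) ℤ, aeval x P = π (deh s P) := by
    intro P
    induction P using MvPolynomial.induction_on with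
    | C a =>
      rw [aeval_C, eq_intCast, eq_intCast (C : ℤ →+* MvPolynomial (Fin m) ℤ)]
      unfold deh
      rw [map_intCast, map_intCast]
    | add p q hp hq =>
      rw [map_add, hp, hq]
      unfold deh
      rw [map_add, map_add]
    | mul_X p i hp =>
      rw [map_mul, hp, aeval_X]
      unfold deh
      rw [map_mul, map_mul, aeval_X]
  have h1 : deh s F ∈ Q := hIQ (Ideal.subset_span (Set.mem_insert_of_mem _ (Set.mem_insert _ _)))
  have h2 : ∀ j, pderiv j (deh s F) ∈ Q := fun j =>
    hIQ (Ideal.subset_span (Set.mem_insert_of_mem _ (Set.mem_insert_of_mem _ ⟨j, rfl⟩)))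
  have h3 : (C (p : ℤ) : MvPolynomial {j : Fin m // j ≠ s} ℤ) ∈ Q :=
    hIQ (Ideal.subset_span (Set.mem_insert _ _))
  have h4 := h L (by
    have h5 : π (C (p : ℤ)) = 0 := (hπ _).2 h3
    rw [eq_intCast (C : ℤ →+* MvPolynomial {j : Fin m // j ≠ s} ℤ), map_intCast, Int.cast_natCast]
      at h5
    exact h5) x (fun j => by
      rw [hx]
      exact (hπ _).2 (all_pderiv_mem F d hF s Q h1 h2 j)) (by
      rw [hx]
      exact (hπ _).2 h1)
  have h5 : x s = 0 := congrFun h4 s
  have h6 : x s = 1 := by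
    rw [hxd]
    simp only
    unfold tau
    rw [dif_pos rfl, map_one]
  rw [h5] at h6
  exact zero_ne_one h6

lemma two {L : Type} [Field L] {m : ℕ} (x : Fin m → L) (u v : ℤ) (P Q : MvPolynomial (Fin m) ℤ) :
    aeval x (C u * P + C v * Q) = (u : L) * aeval x P + (v : L) * aeval x Q := by
  rw [map_add, map_mul, map_mul, aeval_C, aeval_C, eq_intCast, eq_intCast]

lemma pder {L : Type} [Field L] {m : ℕ} (x : Fin m → L) (j a b : Fin m) (e : ℕ) :
    aeval x (pderiv j (X a ^ e * X b : MvPolynomial (Fin m) ℤ)) =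
      (if a = j then (e : L) * x a ^ (e - 1) * x b else 0) + (if b = j then x a ^ e else 0) := by
  rw [Derivation.leibniz, Derivation.leibniz_pow]
  simp only [smul_eq_mul, map_add, map_mul, map_pow, aeval_X, nsmul_eq_mul, map_natCast, pderiv_X]
  by_cases h1 : a = j
  · subst h1
    by_cases h2 : b = a
    · subst h2
      simp
      ring
    · have : (Pi.single a (1 : MvPolynomial (Fin m) ℤ) : Fin m → _) b = 0 :=
        Pi.single_eq_of_ne h2 _
      simp [h2]
      ring
  · by_cases h2 : b = j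
    · subst h2
      simp [h1]
    · simp [h1, h2]

lemma ppow {L : Type} [Field L] {m : ℕ} (x : Fin m → L) (j a : Fin m) (e : ℕ) :
    aeval x (pderiv j (X a ^ e : MvPolynomial (Fin m) ℤ)) =
      (if a = j then (e : L) * x a ^ (e - 1) else 0) := by
  rw [Derivation.leibniz_pow]
  simp only [smul_eq_mul, map_mul, map_pow, aeval_X, nsmul_eq_mul, map_natCast, pderiv_X]
  by_cases h1 : a = j
  · subst h1
    simp
  · simp [h1]

/-- the form of Fermat -/
noncomputable def fer (m d : ℕ) : MvPolynomial (Fin m) ℤ := ∑ i, X i ^ d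

lemma fer_hom (m d : ℕ) : (fer m d).IsHomogeneous d :=
  IsHomogeneous.sum _ _ _ fun i _ => isHomogeneous_X_pow i d

lemma fer_zero {L : Type} [Field L] {m d : ℕ} (hd : 3 ≤ d) (h0 : (d : L) ≠ 0) (x : Fin m → L)
    (h : ∀ j, aeval x (pderiv j (fer m d)) = 0) : x = 0 := by
  funext j
  have h1 := h j
  unfold fer at h1
  rw [map_sum, map_sum] at h1
  simp only [ppow] at h1
  rw [Finset.sum_ite_eq' Finset.univ j] at h1
  rw [if_pos (Finset.mem_univ _), mul_eq_zero, or_iff_right h0] at h1
  exact pow_eq_zero_iff (by omega) |>.1 h1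

lemma chain_zero {L : Type} [Field L] {n d : ℕ} (hd : 3 ≤ d) (h0 : (d : L) = 0)
    (x : Fin (n + 2) → L) (h : ∀ j, aeval x (pderiv j (chainF n d (1 : ℤ))) = 0)
    (hF : aeval x (chainF n d (1 : ℤ)) = 0) : x = 0 := by
  have h1 : ∀ i0 : Fin (n + 1), x i0.castSucc ^ (d - 1) +
      ((d - 1 : ℕ) : L) * x i0.succ ^ (d - 1 - 1) *
        (∑ i : Fin (n + 1), if i.castSucc = i0.succ then x i.succ else 0) = 0 := by
    intro i0
    have h2 := h i0.succ
    unfold chainF at h2
    rw [map_add, map_add, C_1, one_mul, ppow, h0, map_sum, map_sum] at h2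
    simp only [pder, zero_mul, ite_self, add_zero] at h2
    rw [Finset.sum_add_distrib] at h2
    have h3 : ∑ i : Fin (n + 1), (if i.succ = i0.succ then x i.castSucc ^ (d - 1) else 0) =
        x i0.castSucc ^ (d - 1) := by
      simp only [Fin.succ_inj]
      rw [Finset.sum_ite_eq' Finset.univ i0, if_pos (Finset.mem_univ _)]
    have h4 : ∑ i : Fin (n + 1), (if i.castSucc = i0.succ then
        ((d - 1 : ℕ) : L) * x i.castSucc ^ (d - 1 - 1) * x i.succ else 0) =
        ((d - 1 : ℕ) : L) * x i0.succ ^ (d - 1 - 1) *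
          (∑ i : Fin (n + 1), if i.castSucc = i0.succ then x i.succ else 0) := by
      rw [Finset.mul_sum]
      refine Finset.sum_congr rfl fun i _ => ?_
      split_ifs with h5
      · rw [h5]
      · rw [mul_zero]
    rw [h3, h4] at h2
    rw [add_comm]
    exact h2
  have h2 : ∀ i0 : Fin (n + 1), x i0.castSucc = 0 := by
    intro i0
    induction i0 using Fin.reverseInduction with
    | last =>
      have h3 := h1 (Fin.last n)
      have h4 : (∑ i : Fin (n + 1), if i.castSucc = (Fin.last n).succ then x i.succ else 0) = 0 := by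
        refine Finset.sum_eq_zero fun i _ => ?_
        rw [if_neg]
        rw [Fin.succ_last]
        exact (Fin.castSucc_lt_last i).ne
      rw [h4, mul_zero, add_zero] at h3
      exact pow_eq_zero_iff (by omega) |>.1 h3
    | cast i ih =>
      have h3 := h1 i.castSucc
      have h4 : x i.castSucc.succ = 0 := by
        rw [Fin.succ_castSucc]
        exact ih
      rw [h4, zero_pow (by omega), mul_zero, zero_mul, add_zero] at h3
      exact pow_eq_zero_iff (by omega) |>.1 h3
  funext j
  refine Fin.lastCases ?_ (fun i => ?_) j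
  · unfold chainF at hF
    rw [map_add, C_1, one_mul, map_pow, aeval_X, map_sum, Finset.sum_eq_zero, zero_add] at hF
    · exact pow_eq_zero_iff (by omega) |>.1 hF
    · intro i _
      rw [map_mul, map_pow, aeval_X, h2 i, zero_pow (by omega), zero_mul]
  · exact h2 i

lemma cast_one_of {L : Type} [Field L] {p : ℕ} (hp : (p : L) = 0) {u : ℤ} (h : (p : ℤ) ∣ u) :
    (u : L) = 0 := by
  obtain ⟨w, rfl⟩ := h
  rw [Int.cast_mul, Int.cast_natCast, hp, zero_mul]

end BPE

open BPE in
/-- Package BPE. -/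
theorem BPE_ok : S_BPE := by
  intro n d k ex hd Y
  set N : ℕ := ∏ p ∈ (Finset.range (Y + 1)).filter (fun p => p.Prime ∧ ¬ p ∣ d), p with hN
  have hcop : Nat.Coprime N d := by
    rw [hN]
    refine Nat.Coprime.prod_left fun p hp => ?_
    have h1 := (Finset.mem_filter.1 hp).2
    exact (Nat.Prime.coprime_iff_not_dvd h1.1).2 h1.2
  obtain ⟨a, b, hab⟩ := Nat.isCoprime_iff_coprime.2 hcop
  set F : MvPolynomial (Fin (n + 2)) ℤ := C (b * d) * fer (n + 2) d + C (a * N) * chainF n d 1
    with hFdef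
  have hF : F.IsHomogeneous d := by
    refine IsHomogeneous.add ?_ ?_
    · have := (isHomogeneous_C (Fin (n + 2)) (b * (d : ℤ))).mul (fer_hom (n + 2) d)
      rwa [zero_add] at this
    · have := (isHomogeneous_C (Fin (n + 2)) (a * (N : ℤ))).mul (chainF_hom n d hd (1 : ℤ))
      rwa [zero_add] at this
  refine ⟨Fin.cons (coeff (Finsupp.single 0 d) F) fun i => coeff (ex i).1 F, fun p hp hpY => ?_⟩
  rw [spec_of_hom ex F hF]
  refine smAt_of p F hF fun L _ hpL x hx hx0 => ?_
  have hder : ∀ j, aeval x (pderiv j F) = ((b * d : ℤ) : L) * aeval x (pderiv j (fer (n + 2) d)) +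
      ((a * N : ℤ) : L) * aeval x (pderiv j (chainF n d (1 : ℤ))) := by
    intro j
    rw [hFdef, map_add, pderiv_C_mul, pderiv_C_mul, two]
  have hval : aeval x F = ((b * d : ℤ) : L) * aeval x (fer (n + 2) d) +
      ((a * N : ℤ) : L) * aeval x (chainF n d (1 : ℤ)) := by
    rw [hFdef, two]
  have hsum : ((a * N : ℤ) : L) + ((b * d : ℤ) : L) = 1 := by
    rw [← Int.cast_add, hab, Int.cast_one]
  by_cases hpd : p ∣ d
  · have h1 : ((b * d : ℤ) : L) = 0 := cast_one_of hpL (Dvd.dvd.mul_left (by exact_mod_cast hpd) b)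
    rw [h1, add_zero] at hsum
    have hd0 : (d : L) = 0 := by
      have := cast_one_of (u := (d : ℤ)) hpL (by exact_mod_cast hpd)
      rwa [Int.cast_natCast] at this
    refine chain_zero hd hd0 x (fun j => ?_) ?_
    · have := hx j
      rwa [hder, h1, hsum, zero_mul, one_mul, zero_add] at this
    · rwa [hval, h1, hsum, zero_mul, one_mul, zero_add] at hx0
  · have hpN : p ∣ N := Finset.dvd_prod_of_mem (fun p => p) (Finset.mem_filter.2
      ⟨Finset.mem_range.2 (by omega), hp, hpd⟩)
    have h1 : ((a * N : ℤ) : L) = 0 := cast_one_of hpL (Dvd.dvd.mul_left (by exact_mod_cast hpN) a)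
    rw [h1, zero_add] at hsum
    have hd0 : (d : L) ≠ 0 := by
      intro h
      rw [Int.cast_mul, Int.cast_natCast, h, mul_zero] at hsum
      exact zero_ne_one hsum
    refine fer_zero hd hd0 x (fun j => ?_)
    have := hx j
    rwa [hder, h1, hsum, zero_mul, one_mul, add_zero] at this

end Pool.Agent.U41.PH
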